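import Pool.Agent.GCI.Main
import Pool.Agent.GCI.WellDef

/-!
# Grassmann convexity of the osculating curves of convex projective curves

Smooth curves in the real projective space on an arbitrary nontrivial interval, and smooth closed
curves; local lifts, local bases, multiplicities with respect to all hyperplanes and all Grassmann
hyperplanes. `Pool.Agent.GCI.mult_eq_ord` and `multG_eq_ord` show that the multiplicities do not
depend on the lifts and local bases.
-/

set_option autoImplicit false

namespace Pool.Agent.Results.MP_5fea31_an.GrassmannConvexity

open Pool.Agent.GCI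
open scoped LinearAlgebra.Projectivization

/-- For every convex smooth curve in the projective space of dimension `k + m - 1`, on a nontrivial
interval or closed, the `k`-th osculating curve is Grassmann-convex. -/
theorem result (k m : ℕ) (hk : 1 ≤ k) (hm : 1 ≤ m) :
    (∀ I : Set ℝ, I.OrdConnected → I.Nontrivial → ∀ c : ℝ → ℙ ℝ (Fin (k + m) → ℝ),
      SmoothCurve I c → Convex I I c → GrassmannConvex k m I I (osc k I c)) ∧
    (∀ c : AddCircle (1 : ℝ) → ℙ ℝ (Fin (k + m) → ℝ),
      SmoothCurve Set.univ (fun t : ℝ => c (t : AddCircle (1 : ℝ))) →
      Convex Set.univ (Set.Ico 0 1) (fun t : ℝ => c (t : AddCircle (1 : ℝ))) →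
      GrassmannConvex k m Set.univ (Set.Ico 0 1)
        (osc k Set.univ (fun t : ℝ => c (t : AddCircle (1 : ℝ))))) := by
  constructor
  · intro I hI hI' c hc hconv
    exact main hk hm hI hI' hI le_rfl hc hconv
  · intro c hc hconv
    exact main hk hm Set.ordConnected_univ Set.nontrivial_univ Set.ordConnected_Ico
      (Set.subset_univ _) hc hconv

end Pool.Agent.Results.MP_5fea31_an.GrassmannConvexity
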